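import Pool.Agent.Helper99.GL.FSpec
import Mathlib.Analysis.Complex.MeanValue

/-!
Swarm `GL`, part F29: a bounded nonconstant polynomial on a leaf gives the function.
-/

set_option autoImplicit false

open Metric Set Filter Topology

namespace Pool.GL.Helper64

/-- polynomial composed with a holomorphic disc is holomorphic -/
theorem eval_diff (R : MvPolynomial (Fin 2) ℂ) (c : ℂ → ℂ × ℂ) (s : Set ℂ)
    (hc : DifferentiableOn ℂ c s) :
    DifferentiableOn ℂ (fun t => MvPolynomial.eval ![(c t).1, (c t).2] R) s := by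
  have h1 : DifferentiableOn ℂ (fun t => (c t).1) s := hc.fst
  have h2 : DifferentiableOn ℂ (fun t => (c t).2) s := hc.snd
  induction R using MvPolynomial.induction_on with
  | C a => simpa using differentiableOn_const _
  | add p q hp hq =>
    simp only [map_add]
    exact hp.add hq
  | mul_X p i hp =>
    simp only [map_mul, MvPolynomial.eval_X]
    refine hp.mul ?_
    fin_cases i
    · simpa using h1
    · simpa using h2

/-- mean value property for the real part of `ω g` -/
theorem mean_re (g : ℂ → ℂ) (ω : ℂ) (hg : DifferentiableOn ℂ g (ball (0 : ℂ) 1)) (z : ℂ) (r : ℝ)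
    (hr : 0 < r) (hz : closedBall z r ⊆ ball (0 : ℂ) 1) :
    2 * Real.pi * (ω * g z).re =
      intervalIntegral (fun θ => (ω * g (circleMap z r θ)).re) 0 (2 * Real.pi)
        MeasureTheory.volume := by
  have hd : DiffContOnCl ℂ g (ball z |r|) := by
    rw [abs_of_pos hr]
    refine ⟨hg.mono (ball_subset_closedBall.trans hz), ?_⟩
    exact hg.continuousOn.mono (by
      refine (closure_mono ball_subset_closedBall).trans ?_
      rw [isClosed_closedBall.closure_eq]
      exact hz)
  have h1 := hd.circleAverage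
  rw [Real.circleAverage] at h1
  have hint : IntervalIntegrable (fun θ => g (circleMap z r θ)) MeasureTheory.volume 0
      (2 * Real.pi) := by
    refine Continuous.intervalIntegrable ?_ _ _
    refine (hg.continuousOn.comp_continuous (continuous_circleMap z r) ?_)
    intro θ
    exact hz (circleMap_mem_closedBall z hr.le θ)
  have hpi : (2 * Real.pi : ℝ) ≠ 0 := by positivity
  have h2 : ∫ θ in (0 : ℝ)..(2 * Real.pi), g (circleMap z r θ) = (2 * Real.pi : ℝ) • g z := by
    rw [← h1, smul_smul, mul_inv_cancel₀ hpi, one_smul]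
  have h3 : ∫ θ in (0 : ℝ)..(2 * Real.pi), (ω * g (circleMap z r θ)) =
      ω * ((2 * Real.pi : ℝ) • g z) := by
    rw [intervalIntegral.integral_const_mul, h2]
  have h4 : ∫ θ in (0 : ℝ)..(2 * Real.pi), (ω * g (circleMap z r θ)).re =
      (∫ θ in (0 : ℝ)..(2 * Real.pi), (ω * g (circleMap z r θ))).re := by
    have := intervalIntegral.intervalIntegral_re (𝕜 := ℂ) (hint.const_mul ω)
    simpa using this
  change 2 * Real.pi * (ω * g z).re = ∫ θ in (0 : ℝ)..(2 * Real.pi), (ω * g (circleMap z r θ)).re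
  rw [h4, h3]
  simp only [Complex.real_smul, Complex.mul_re, Complex.ofReal_re, Complex.ofReal_im,
    Complex.mul_im]
  ring

/-- the construction for a fixed `ω` -/
theorem harm_aux (F : Fld) (p : ℂ × ℂ) (R : MvPolynomial (Fin 2) ℂ) (K : ℝ) (ω : ℂ)
    (hω : ‖ω‖ = 1)
    (hb : ∀ q : ℂ × ℂ, F.Lf p q → ‖MvPolynomial.eval ![q.1, q.2] R‖ ≤ K)
    (hn : ∃ q₁ q₂ : ℂ × ℂ, F.Lf p q₁ ∧ F.Lf p q₂ ∧
      (ω * MvPolynomial.eval ![q₁.1, q₁.2] R).re ≠ (ω * MvPolynomial.eval ![q₂.1, q₂.2] R).re) :
    F.LeafGood p := by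
  refine ⟨fun q => (ω * MvPolynomial.eval ![q.1, q.2] R).re, ⟨K, ?_⟩, hn, ?_⟩
  · intro q hq
    refine (Complex.abs_re_le_norm _).trans ?_
    rw [norm_mul, hω, one_mul]
    exact hb q hq
  · intro c hc _
    have hg := eval_diff R c _ hc.1
    refine ⟨?_, ?_⟩
    · refine ContinuousOn.upperSemicontinuousOn ?_
      exact Complex.continuous_re.comp_continuousOn (continuousOn_const.mul hg.continuousOn)
    · intro z r hr hz
      exact (mean_re _ ω hg z r hr hz).le

/-- **F29** -/
theorem HARM : S_HARM := by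
  intro F p R K hb hn
  obtain ⟨q, hq, hne⟩ := hn (MvPolynomial.eval ![p.1, p.2] R)
  by_cases hre : (MvPolynomial.eval ![q.1, q.2] R).re = (MvPolynomial.eval ![p.1, p.2] R).re
  · have him : (MvPolynomial.eval ![q.1, q.2] R).im ≠ (MvPolynomial.eval ![p.1, p.2] R).im :=
      fun h => hne (Complex.ext hre h)
    refine harm_aux F p R K (-Complex.I) (by simp) hb ⟨q, p, hq, Relation.ReflTransGen.refl, ?_⟩
    simpa using him
  · refine harm_aux F p R K 1 (by simp) hb ⟨q, p, hq, Relation.ReflTransGen.refl, ?_⟩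
    simpa using hre

end Pool.GL.Helper64
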