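import Pool.Agent.Helper99.GL.FSpec

/-!
Swarm `GL`, part F33: the shear making `[0:0:1]` nonsingular.
-/

set_option autoImplicit false

open Metric Set Filter Topology

namespace Pool.GL.Helper64

/-- the shear -/
noncomputable def shear (κ : ℂ) : (Fin 3 → ℂ) ≃ₗ[ℂ] (Fin 3 → ℂ) where
  toFun z := ![z 0, z 1 + κ * z 2, z 2]
  invFun z := ![z 0, z 1 - κ * z 2, z 2]
  map_add' x y := by ext i; fin_cases i <;> simp; ring
  map_smul' c x := by ext i; fin_cases i <;> simp; ring
  left_inv x := by ext i; fin_cases i <;> simp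
  right_inv x := by ext i; fin_cases i <;> simp

theorem shear_apply (κ : ℂ) (z : Fin 3 → ℂ) : shear κ z = ![z 0, z 1 + κ * z 2, z 2] := rfl

theorem shear_symm_apply (κ : ℂ) (z : Fin 3 → ℂ) :
    (shear κ).symm z = ![z 0, z 1 - κ * z 2, z 2] := rfl

noncomputable def shearC (κ : ℂ) : (Fin 3 → ℂ) ≃L[ℂ] (Fin 3 → ℂ) :=
  (shear κ).toContinuousLinearEquiv

theorem shearC_apply (κ : ℂ) (z : Fin 3 → ℂ) : shearC κ z = ![z 0, z 1 + κ * z 2, z 2] := rfl

theorem shearC_symm_apply (κ : ℂ) (z : Fin 3 → ℂ) :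
    (shearC κ).symm z = ![z 0, z 1 - κ * z 2, z 2] := rfl

/-- coordinates of the shear as polynomials -/
noncomputable def shP (κ : ℂ) : Fin 3 → MvPolynomial (Fin 3) ℂ :=
  ![MvPolynomial.X 0, MvPolynomial.X 1 + MvPolynomial.C κ * MvPolynomial.X 2, MvPolynomial.X 2]

/-- pull back of polynomials by the shear -/
noncomputable def pb (κ : ℂ) : MvPolynomial (Fin 3) ℂ →ₐ[ℂ] MvPolynomial (Fin 3) ℂ :=
  MvPolynomial.aeval (shP κ)

theorem pb_X (κ : ℂ) (i : Fin 3) : pb κ (MvPolynomial.X i) = shP κ i :=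
  MvPolynomial.aeval_X _ _

theorem pb_C (κ : ℂ) (a : ℂ) : pb κ (MvPolynomial.C a) = MvPolynomial.C a :=
  MvPolynomial.aeval_C _ _

theorem eval_shP (κ : ℂ) (z : Fin 3 → ℂ) (φ : MvPolynomial (Fin 3) ℂ) :
    MvPolynomial.eval z (pb κ φ) = MvPolynomial.eval (shearC κ z) φ := by
  induction φ using MvPolynomial.induction_on with
  | C a => simp
  | add p q hp hq => simp only [map_add, hp, hq]
  | mul_X p i hp =>
    simp only [map_mul, pb_X, MvPolynomial.eval_X, hp]
    congr 1
    fin_cases i <;> simp [shP, shearC_apply]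

def shM (κ : ℂ) : Matrix (Fin 3) (Fin 3) ℂ := !![1, 0, 0; 0, 1, κ; 0, 0, 1]
def shMi (κ : ℂ) : Matrix (Fin 3) (Fin 3) ℂ := !![1, 0, 0; 0, 1, -κ; 0, 0, 1]

theorem shM_mul (κ : ℂ) : shM κ * shMi κ = 1 := by
  ext i j
  fin_cases i <;> fin_cases j <;> simp [shM, shMi, Matrix.mul_apply, Fin.sum_univ_three]

/-- chain rule -/
theorem eval_pderiv_shP (κ : ℂ) (z : Fin 3 → ℂ) (j : Fin 3) (φ : MvPolynomial (Fin 3) ℂ) :
    MvPolynomial.eval z (MvPolynomial.pderiv j (pb κ φ)) =
      ∑ k, MvPolynomial.eval (shearC κ z) (MvPolynomial.pderiv k φ) * shM κ k j := by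
  induction φ using MvPolynomial.induction_on with
  | C a => simp
  | add p q hp hq =>
    simp only [map_add, hp, hq, add_mul, Finset.sum_add_distrib]
  | mul_X p i hp =>
    have hx : MvPolynomial.eval z (MvPolynomial.pderiv j (shP κ i)) = shM κ i j := by
      fin_cases i <;> fin_cases j <;>
        simp [shP, shM, MvPolynomial.pderiv_X]
    have hxi : MvPolynomial.eval z (shP κ i) = shearC κ z i := by
      have := eval_shP κ z (MvPolynomial.X i)
      simpa [pb_X] using this
    simp only [map_mul, pb_X, MvPolynomial.pderiv_mul, map_add, hp,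
      eval_shP, hx, hxi, MvPolynomial.eval_X, MvPolynomial.pderiv_X, Pi.single_apply]
    simp only [add_mul, Finset.sum_add_distrib, Finset.sum_mul]
    congr 1
    · refine Finset.sum_congr rfl fun k _ => ?_
      ring
    · rw [Finset.sum_eq_single i]
      · simp
      · intro k _ hk
        simp [Ne.symm hk]
      · simp

noncomputable def Ft (κ : ℂ) (F : Fin 3 → MvPolynomial (Fin 3) ℂ) :
    Fin 3 → MvPolynomial (Fin 3) ℂ :=
  ![pb κ (F 0), pb κ (F 1) - MvPolynomial.C κ * pb κ (F 2), pb κ (F 2)]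

theorem eval_Ft (κ : ℂ) (F : Fin 3 → MvPolynomial (Fin 3) ℂ) (z : Fin 3 → ℂ) :
    (fun i => MvPolynomial.eval z (Ft κ F i)) =
      (shearC κ).symm (fun i => MvPolynomial.eval (shearC κ z) (F i)) := by
  rw [shearC_symm_apply]
  ext i
  fin_cases i <;> simp [Ft, eval_shP]

theorem charpoly_Ft (κ : ℂ) (F : Fin 3 → MvPolynomial (Fin 3) ℂ) (z : Fin 3 → ℂ) :
    (Matrix.of fun i j => MvPolynomial.eval z (MvPolynomial.pderiv j (Ft κ F i))).charpoly =
      (Matrix.of fun i j =>
        MvPolynomial.eval (shearC κ z) (MvPolynomial.pderiv j (F i))).charpoly := by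
  set J := Matrix.of fun i j =>
        MvPolynomial.eval (shearC κ z) (MvPolynomial.pderiv j (F i)) with hJ
  have h : (Matrix.of fun i j => MvPolynomial.eval z (MvPolynomial.pderiv j (Ft κ F i))) =
      shMi κ * (J * shM κ) := by
    ext i j
    have key : ∀ i : Fin 3, MvPolynomial.eval z (MvPolynomial.pderiv j
        (pb κ (F i))) = (J * shM κ) i j := by
      intro i
      rw [eval_pderiv_shP, Matrix.mul_apply]
      rfl
    rw [Matrix.mul_apply, Fin.sum_univ_three]
    fin_cases i
    · simp [Ft, key, shMi]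
    · simp [Ft, key, shMi]
      ring
    · simp [Ft, key, shMi]
  rw [h, Matrix.charpoly_mul_comm, Matrix.mul_assoc, shM_mul, Matrix.mul_one]

theorem homog_Ft (κ : ℂ) (d : ℕ) (F : Fin 3 → MvPolynomial (Fin 3) ℂ)
    (hF : ∀ i, (F i).IsHomogeneous d) : ∀ i, (Ft κ F i).IsHomogeneous d := by
  have h1 : ∀ i, (shP κ i).IsHomogeneous 1 := by
    intro i
    fin_cases i
    · exact MvPolynomial.isHomogeneous_X _ _
    · refine (MvPolynomial.isHomogeneous_X _ _).add ?_
      have := (MvPolynomial.isHomogeneous_C (Fin 3) κ).mul (MvPolynomial.isHomogeneous_X ℂ (2 : Fin 3))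
      simpa using this
    · exact MvPolynomial.isHomogeneous_X _ _
  have h2 : ∀ i, (pb κ (F i)).IsHomogeneous d := by
    intro i
    have := (hF i).aeval (shP κ) h1
    rw [one_mul] at this
    exact this
  intro i
  fin_cases i
  · exact h2 0
  · refine (h2 1).sub ?_
    have := (MvPolynomial.isHomogeneous_C (Fin 3) κ).mul (h2 2)
    simpa using this
  · exact h2 2

theorem rtg_lift {α β : Type*} {r : α → α → Prop} {p : β → β → Prop} (f : α → β)
    (h : ∀ x y, r x y → p (f x) (f y)) {a b : α} (hab : Relation.ReflTransGen r a b) :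
    Relation.ReflTransGen p (f a) (f b) := by
  induction hab with
  | refl => exact .refl
  | tail _ hbc ih => exact ih.tail (h _ _ hbc)

theorem exists_kappa (Sing : (Fin 3 → ℂ) → Prop) (S : Finset (Fin 3 → ℂ))
    (hS : ∀ z, Sing z → ∃ s ∈ S, ∃ t : ℂ, z = t • s) : ∃ κ : ℂ, ¬ Sing ![0, κ, 1] := by
  by_contra hcon
  push Not at hcon
  choose s hs t ht using fun κ => hS _ (hcon κ)
  have hinj : Function.Injective s := by
    intro κ κ' e
    have h1 := ht κ
    have h2 := ht κ'
    rw [e] at h1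
    have a1 := congrFun h1 2
    have a2 := congrFun h2 2
    have b1 := congrFun h1 1
    have b2 := congrFun h2 1
    simp at a1 a2 b1 b2
    have h0 : s κ' 2 ≠ 0 := by
      intro h0
      rw [h0, mul_zero] at a1
      exact one_ne_zero a1
    have : t κ = t κ' := mul_right_cancel₀ h0 (a1.symm.trans a2)
    calc κ = t κ * s κ' 1 := b1
      _ = t κ' * s κ' 1 := by rw [this]
      _ = κ' := b2.symm
  exact (Set.infinite_range_of_injective hinj)
    (S.finite_toSet.subset (Set.range_subset_iff.2 hs))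

/-- **F33** -/
theorem COORD : S_COORD := by
  intro h d F hd hhom V hV Sing hSing ⟨S, hS⟩ hline hhyp Tan hTan L p hp0 hpS hL hnalg
  obtain ⟨κ, hκ⟩ := exists_kappa Sing S hS
  set g := shearC κ with hg
  have hVF : ∀ z, V z = fun i => MvPolynomial.eval z (F i) := fun z => funext fun i => hV z i
  have hVt : ∀ z, (fun i => MvPolynomial.eval z (Ft κ F i)) = g.symm (V (g z)) := by
    intro z
    rw [eval_Ft, hVF]
  have hg0 : ∀ z, g z ≠ 0 ↔ z ≠ 0 := fun z => by simp
  have hgs0 : ∀ z, g.symm z ≠ 0 ↔ z ≠ 0 := fun z => by simp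
  have hgs : ∀ z, g (g.symm z) = z := fun z => g.apply_symm_apply z
  have hsg : ∀ z, g.symm (g z) = z := fun z => g.symm_apply_apply z
  have eqv : ∀ (z : Fin 3 → ℂ) (α β : ℂ) (w : Fin 3 → ℂ),
      w = α • z + β • (fun i => MvPolynomial.eval z (Ft κ F i)) ↔
        g w = α • g z + β • V (g z) := by
    intro z α β w
    rw [hVt]
    constructor
    · intro e
      rw [e]
      simp
    · intro e
      have := congrArg g.symm e
      simpa using this
  have hSing' : ∀ z, Sing (g z) ↔ (z ≠ 0 ∧ ∃ c : ℂ,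
      (fun i => MvPolynomial.eval z (Ft κ F i)) = c • z) := by
    intro z
    rw [hSing, hg0, hVt]
    refine and_congr_right fun _ => exists_congr fun c => ?_
    constructor
    · intro e
      rw [e]
      simp
    · intro e
      have := congrArg g e
      simpa using this
  have hg0' : ∀ z : Fin 3 → ℂ, (g z) 0 = z 0 := fun z => by
    rw [hg, shearC_apply]; simp
  have hgs0' : ∀ z : Fin 3 → ℂ, (g.symm z) 0 = z 0 := fun z => by
    rw [hg, shearC_symm_apply]; simp
  have he3 : g ![0, 0, 1] = ![0, κ, 1] := by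
    rw [hg, shearC_apply]; simp
  have hnon : ¬ ∃ c : ℂ, ∀ i, MvPolynomial.eval ![0, 0, 1] (Ft κ F i) =
      c * (![0, 0, 1] : Fin 3 → ℂ) i := by
    rintro ⟨c, hc⟩
    apply hκ
    rw [← he3, hSing']
    refine ⟨?_, c, ?_⟩
    · intro e
      have := congrFun e 2
      simp at this
    · ext i
      rw [hc i]
      simp
  have hderiv : ∀ (φ : ℂ → (Fin 3 → ℂ)), DifferentiableOn ℂ φ (Metric.ball (0 : ℂ) 1) →
      ∀ t ∈ Metric.ball (0 : ℂ) 1, deriv (fun t => g (φ t)) t = g (deriv φ t) := by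
    intro φ hφ t ht
    have h1 : HasDerivAt φ (deriv φ t) t :=
      (hφ.differentiableAt (Metric.isOpen_ball.mem_nhds ht)).hasDerivAt
    have h2 := (g : (Fin 3 → ℂ) →L[ℂ] (Fin 3 → ℂ)).hasFDerivAt.comp_hasDerivAt t h1
    exact h2.deriv
  have hdiffg : ∀ (φ : ℂ → (Fin 3 → ℂ)), DifferentiableOn ℂ (fun t => g (φ t)) (Metric.ball (0 : ℂ) 1)
      ↔ DifferentiableOn ℂ φ (Metric.ball (0 : ℂ) 1) := by
    intro φ
    exact g.comp_differentiableOn_iff
  have hTan' : ∀ φ : ℂ → (Fin 3 → ℂ), Tan (fun t => g (φ t)) ↔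
      (DifferentiableOn ℂ φ (Metric.ball (0 : ℂ) 1) ∧ ∀ t ∈ Metric.ball (0 : ℂ) 1,
        φ t ≠ 0 ∧ ¬ Sing (g (φ t)) ∧ ∃ α β : ℂ, deriv φ t = α • φ t +
          β • (fun i => MvPolynomial.eval (φ t) (Ft κ F i))) := by
    intro φ
    rw [hTan, hdiffg]
    refine and_congr_right fun hφ => forall₂_congr fun t ht => ?_
    rw [hg0, hderiv φ hφ t ht]
    refine and_congr_right fun _ => and_congr_right fun _ => exists₂_congr fun α β => ?_
    exact (eqv _ _ _ _).symm
  obtain ⟨u, ⟨M, hM⟩, hu2, hu3, q₁, q₂, hq₁, hq₂, hne⟩ := h d (Ft κ F) hnon hd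
    (homog_Ft κ d F hhom) (fun z i => MvPolynomial.eval z (Ft κ F i)) (fun _ _ => rfl)
    (fun z => Sing (g z)) hSing' ⟨S.image g.symm, fun z hz => by
      obtain ⟨s, hs, t, ht⟩ := hS _ hz
      refine ⟨g.symm s, Finset.mem_image_of_mem _ hs, t, ?_⟩
      have := congrArg g.symm ht
      simpa using this⟩
    (fun z hz => by
      have h1 := congrFun (hVt z) 0
      have h1' : MvPolynomial.eval z (Ft κ F 0) = g.symm (V (g z)) 0 := h1
      change MvPolynomial.eval z (Ft κ F 0) = 0
      rw [h1', hgs0']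
      exact hline _ ((hg0' z).trans hz))
    (fun a c ha hac => by
      have hac' : (fun i => MvPolynomial.eval a (Ft κ F i)) = c • a := hac
      rw [hVt] at hac'
      have h1 := congrArg g hac'
      have h2 : V (g a) = c • g a := by simpa using h1
      obtain ⟨ν₁, ν₂, h3, h4⟩ := hhyp (g a) c ((hg0 a).2 ha) h2
      exact ⟨ν₁, ν₂, (charpoly_Ft κ F a).trans h3, h4⟩)
    (fun φ => Tan (fun t => g (φ t))) hTan' (fun q => L (g q)) (g.symm p) ((hgs0 p).2 hp0)
    (by rw [hgs]; exact hpS)
    (fun q => by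
      rw [hL]
      constructor
      · intro hh
        have := rtg_lift (p := fun x y => ∃ φ : ℂ → (Fin 3 → ℂ),
          Tan (fun t => g (φ t)) ∧ ∃ s ∈ Metric.ball (0 : ℂ) 1, ∃ t ∈ Metric.ball (0 : ℂ) 1,
            ∃ a b : ℂ, φ s = a • x ∧ φ t = b • y) g.symm (fun x y => by
          rintro ⟨φ, hφ, s, hs, t, ht, a, b, hx, hy⟩
          refine ⟨fun t => g.symm (φ t), ?_, s, hs, t, ht, a, b, ?_, ?_⟩
          · simpa [hgs] using hφ
          · simp only [hx]; simp
          · simp only [hy]; simp) hh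
        simpa [hsg] using this
      · intro hh
        have := rtg_lift (p := fun x y => ∃ φ, Tan φ ∧ ∃ s ∈ Metric.ball (0 : ℂ) 1,
          ∃ t ∈ Metric.ball (0 : ℂ) 1, ∃ a b : ℂ, φ s = a • x ∧ φ t = b • y) g (fun x y => by
          rintro ⟨φ, hφ, s, hs, t, ht, a, b, hx, hy⟩
          refine ⟨fun t => g (φ t), hφ, s, hs, t, ht, a, b, ?_, ?_⟩
          · simp only [hx]; simp
          · simp only [hy]; simp) hh
        simpa [hgs] using this)
    (by
      rintro ⟨k, P, hk, hP, hP0, hvan⟩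
      apply hnalg
      -- pull back by the inverse shear
      have hinv : ∀ z, shearC (-κ) z = g.symm z := by
        intro z
        rw [hg, shearC_symm_apply, shearC_apply]
        simp [sub_eq_add_neg]
      refine ⟨k, pb (-κ) P, hk, ?_, ?_, ?_⟩
      · have h1 : ∀ i, (shP (-κ) i).IsHomogeneous 1 := by
          intro i
          fin_cases i
          · exact MvPolynomial.isHomogeneous_X _ _
          · refine (MvPolynomial.isHomogeneous_X _ _).add ?_
            have := (MvPolynomial.isHomogeneous_C (Fin 3) (-κ)).mul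
              (MvPolynomial.isHomogeneous_X ℂ (2 : Fin 3))
            simpa using this
          · exact MvPolynomial.isHomogeneous_X _ _
        have := hP.aeval (shP (-κ)) h1
        rw [one_mul] at this
        exact this
      · intro h0
        apply hP0
        apply MvPolynomial.funext
        intro z
        have := eval_shP (-κ) (g z) P
        rw [h0, hinv, hsg] at this
        rw [← this]
        simp
      · intro q hq
        rw [eval_shP, hinv]
        exact hvan _ (by rw [hgs]; exact hq))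
  refine ⟨fun q => u (g.symm q), ⟨M, fun q hq => hM _ (by rw [hgs]; exact hq)⟩, ?_, ?_,
    g q₁, g q₂, hq₁, hq₂, by simpa [hsg] using hne⟩
  · intro q hq c hc
    have := hu2 (g.symm q) (by rw [hgs]; exact hq) c hc
    simpa using this
  · intro φ hφ hLφ
    have := hu3 (fun t => g.symm (φ t)) (by simpa [hgs] using hφ)
      (fun t ht => by rw [hgs]; exact hLφ t ht)
    exact this

end Pool.GL.Helper64
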